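import Pool.Agent.J6H84.LM.StmS

/-!
# A set with `(p - 1) / 2` linear members and one member which is not linear (module SHARP)
-/

set_option autoImplicit false

namespace Pool.Agent.J6H34.LM

open Finset Polynomial

open Classical in
/-- the values of the member which is not linear -/
noncomputable def dd {F : Type} [Field F] (a b : F) : F := if IsSquare (a - b) then a else b

theorem dd_pos {F : Type} [Field F] {a b : F} (h : IsSquare (a - b)) : dd a b = a := if_pos h

theorem dd_neg {F : Type} [Field F] {a b : F} (h : ¬ IsSquare (a - b)) : dd a b = b := if_neg h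

theorem key {F : Type} [Field F] {a b s A : F} (hA : A ≠ 0) (hsq : IsSquare A)
    (h : dd a b = dd (a + s * A) (b + s)) : s = 0 := by
  by_cases h1 : IsSquare (a - b)
  · by_cases h2 : IsSquare ((a + s * A) - (b + s))
    · rw [dd_pos h1, dd_pos h2] at h
      have h3 : s * A = 0 := by linear_combination -h
      exact (mul_eq_zero.1 h3).resolve_right hA
    · exfalso
      rw [dd_pos h1, dd_neg h2] at h
      apply h2
      have e : (a + s * A) - (b + s) = (a - b) * A := by linear_combination (1 - A) * h
      rw [e]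
      exact h1.mul hsq
  · by_cases h2 : IsSquare ((a + s * A) - (b + s))
    · exfalso
      rw [dd_neg h1, dd_pos h2] at h
      apply h1
      have e : a - b = ((a + s * A) - (b + s)) * A := by linear_combination (A - 1) * h
      rw [e]
      exact h2.mul hsq
    · rw [dd_neg h1, dd_neg h2] at h
      linear_combination -h

theorem main : Pool.Agent.J6H84.LM.S_Sharp := by
  intro p hp hp2 m hm
  obtain ⟨k, rfl⟩ : ∃ k, m = k + 2 := ⟨m - 2, by omega⟩
  obtain ⟨D, hD⟩ : ∃ D : (Fin (k + 2) → ZMod p) → ZMod p,
      D = fun y => dd ((-1) ^ (k + 1) * y 0) (y (Fin.last (k + 1))) := ⟨_, rfl⟩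
  refine ⟨D, fun f hf => ?_, ?_⟩
  · rw [← Finite.injective_iff_bijective]
    intro y y' hyy
    have hi : ∀ i, (f i).elim (D y) (fun t => ∑ j : Fin (k + 2), t.1 ^ (j : ℕ) * y j) =
        (f i).elim (D y') (fun t => ∑ j : Fin (k + 2), t.1 ^ (j : ℕ) * y' j) :=
      fun i => congrFun hyy i
    obtain ⟨P, hP⟩ : ∃ P : (ZMod p)[X],
        P = ∑ j : Fin (k + 2), C (y' j - y j) * X ^ (j : ℕ) := ⟨_, rfl⟩
    have hcoeff : ∀ j : Fin (k + 2), P.coeff j = y' j - y j := by
      intro j
      rw [hP, finsetSum_coeff, Finset.sum_eq_single j]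
      · rw [coeff_C_mul, coeff_X_pow, if_pos rfl, mul_one]
      · intro i _ hij
        rw [coeff_C_mul, coeff_X_pow, if_neg (fun h => hij (Fin.ext h.symm)), mul_zero]
      · intro h
        exact absurd (mem_univ j) h
    have hdeg : P.natDegree ≤ k + 1 := by
      rw [hP]
      refine natDegree_sum_le_of_forall_le _ _ fun j _ => ?_
      exact (natDegree_C_mul_X_pow_le _ _).trans (by omega)
    have heval : ∀ i t, f i = some t → P.eval t.1 = 0 := by
      intro i t h
      have h1 := hi i
      rw [h] at h1
      simp only [Option.elim_some] at h1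
      rw [hP, eval_finsetSum]
      simp only [eval_mul, eval_C, eval_pow, eval_X]
      have h2 : ∑ j : Fin (k + 2), (y' j - y j) * t.1 ^ (j : ℕ) =
          ∑ j : Fin (k + 2), t.1 ^ (j : ℕ) * y' j - ∑ j : Fin (k + 2), t.1 ^ (j : ℕ) * y j := by
        rw [← Finset.sum_sub_distrib]
        exact Finset.sum_congr rfl fun j _ => by ring
      rw [h2, h1, sub_self]
    have hzero : P = 0 → y = y' := by
      intro h
      funext j
      have h1 := hcoeff j
      rw [h, coeff_zero] at h1
      exact (sub_eq_zero.1 h1.symm).symm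
    by_cases hnone : ∃ i₀, f i₀ = none
    · obtain ⟨i₀, hi₀⟩ := hnone
      have hex : ∀ i : {i : Fin (k + 2) // i ≠ i₀}, ∃ t, f i.1 = some t := by
        intro i
        rw [← Option.ne_none_iff_exists']
        intro h
        exact i.2 (hf (h.trans hi₀.symm))
      choose g hg using hex
      have hginj : Function.Injective fun i : {i : Fin (k + 2) // i ≠ i₀} => (g i).1 := by
        intro i i' h
        have h1 : g i = g i' := Subtype.ext h
        apply Subtype.ext
        apply hf
        rw [hg, hg, h1]
      have hcard : Fintype.card {i : Fin (k + 2) // i ≠ i₀} = k + 1 := by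
        rw [Fintype.card_subtype_compl, Fintype.card_fin, Fintype.card_subtype_eq]
        rfl
      obtain ⟨Q, hQ⟩ : ∃ Q : (ZMod p)[X],
          Q = ∏ i : {i : Fin (k + 2) // i ≠ i₀}, (X - C (g i).1) := ⟨_, rfl⟩
      have hQm : Q.Monic := by
        rw [hQ]
        exact monic_prod_of_monic _ _ fun i _ => monic_X_sub_C _
      have hQd : Q.natDegree = k + 1 := by
        rw [hQ, natDegree_prod_of_monic _ _ fun i _ => monic_X_sub_C _]
        simp only [natDegree_X_sub_C, sum_const, card_univ, smul_eq_mul, mul_one]
        exact hcard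
      have hQ1 : Q.coeff (k + 1) = 1 := by
        rw [← hQd]
        exact hQm
      have hQ0 : Q.coeff 0 = (-1) ^ (k + 1) * ∏ i, (g i).1 := by
        rw [coeff_zero_eq_eval_zero, hQ, eval_prod]
        simp only [eval_sub, eval_X, eval_C, zero_sub]
        rw [Finset.prod_neg, card_univ, hcard]
      obtain ⟨s, hs⟩ : ∃ s, s = P.coeff (k + 1) := ⟨_, rfl⟩
      have hPQ : P - C s * Q = 0 := by
        refine eq_zero_of_natDegree_lt_card_of_eval_eq_zero _ hginj (fun i => ?_) ?_
        · rw [eval_sub, heval i.1 (g i) (hg i), eval_mul, hQ, eval_prod,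
            Finset.prod_eq_zero (mem_univ i) (by rw [eval_sub, eval_X, eval_C, sub_self]),
            mul_zero, sub_zero]
        · rw [hcard]
          have h1 : (P - C s * Q).natDegree ≤ k + 1 :=
            (natDegree_sub_le _ _).trans (max_le hdeg ((natDegree_C_mul_le _ _).trans hQd.le))
          refine lt_of_le_of_ne h1 fun h2 => ?_
          have h3 : (P - C s * Q).leadingCoeff = 0 := by
            rw [leadingCoeff, h2, coeff_sub, coeff_C_mul, hQ1, hs, mul_one, sub_self]
          rw [leadingCoeff_eq_zero] at h3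
          rw [h3, natDegree_zero] at h2
          omega
      have hPQ' : P = C s * Q := sub_eq_zero.1 hPQ
      have hd : ∀ j : Fin (k + 2), y' j = y j + s * Q.coeff j := by
        intro j
        have h1 := hcoeff j
        rw [hPQ', coeff_C_mul] at h1
        linear_combination -h1
      have h1 := hi i₀
      rw [hi₀] at h1
      simp only [Option.elim_none, hD] at h1
      have e1 : (-1) ^ (k + 1) * y' 0 = (-1) ^ (k + 1) * y 0 + s * ∏ i, (g i).1 := by
        have h2 := hd 0
        rw [Fin.val_zero, hQ0] at h2
        have h3 : ((-1 : ZMod p) ^ (k + 1)) * (-1) ^ (k + 1) = 1 := by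
          rw [← mul_pow, neg_one_mul, neg_neg, one_pow]
        rw [h2]
        linear_combination (s * ∏ i, (g i).1) * h3
      have e2 : y' (Fin.last (k + 1)) = y (Fin.last (k + 1)) + s := by
        have h2 := hd (Fin.last (k + 1))
        rw [Fin.val_last, hQ1, mul_one] at h2
        exact h2
      rw [e1, e2] at h1
      have hs0 : s = 0 := key (Finset.prod_ne_zero_iff.2 fun i _ => (g i).2.1)
        (Finset.isSquare_prod _ fun i _ => (g i).2.2) h1
      apply hzero
      rw [hPQ', hs0, C_0, zero_mul]
    · push Not at hnone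
      apply hzero
      have hex : ∀ i, ∃ t, f i = some t := fun i => Option.ne_none_iff_exists'.1 (hnone i)
      choose g hg using hex
      refine eq_zero_of_natDegree_lt_card_of_eval_eq_zero P (f := fun i => (g i).1) ?_
        (fun i => heval i (g i) (hg i)) ?_
      · intro i i' h
        have h1 : g i = g i' := Subtype.ext h
        apply hf
        rw [hg, hg, h1]
      · rw [Fintype.card_fin]
        omega
  · rintro ⟨a, ha⟩
    have hl : (0 : Fin (k + 2)) ≠ Fin.last (k + 1) := by
      intro h
      have := congrArg Fin.val h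
      rw [Fin.val_zero, Fin.val_last] at this
      omega
    -- a vector in the kernel
    obtain ⟨c0, c1, hc, hac⟩ : ∃ c0 c1 : ZMod p, ¬ (c0 = 0 ∧ c1 = 0) ∧
        a 0 * c0 + a (Fin.last (k + 1)) * c1 = 0 := by
      by_cases h : a 0 = 0 ∧ a (Fin.last (k + 1)) = 0
      · exact ⟨1, 0, fun h1 => one_ne_zero h1.1, by rw [h.1]; ring⟩
      · refine ⟨a (Fin.last (k + 1)), -a 0, fun h1 => h ⟨neg_eq_zero.1 h1.2, h1.1⟩, by ring⟩
    have hv : ∀ s : ZMod p, dd ((-1) ^ (k + 1) * (s * c0)) (s * c1) = 0 := by
      intro s
      obtain ⟨v, hv⟩ : ∃ v : Fin (k + 2) → ZMod p,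
          v = fun i => if i = 0 then s * c0 else if i = Fin.last (k + 1) then s * c1 else 0 :=
        ⟨_, rfl⟩
      have h0 : v 0 = s * c0 := by rw [hv]; exact if_pos rfl
      have h1 : v (Fin.last (k + 1)) = s * c1 := by
        rw [hv]
        exact (if_neg hl.symm).trans (if_pos rfl)
      have h2 := ha v 0 (by
        rw [Fintype.sum_eq_add 0 (Fin.last (k + 1)) hl, h0, h1]
        · simp only [Pi.zero_apply, mul_zero, Finset.sum_const_zero]
          linear_combination s * hac
        · rintro i ⟨hi0, hi1⟩
          rw [hv]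
          simp only
          rw [if_neg hi0, if_neg hi1, mul_zero])
      rw [hD] at h2
      simp only [h0, h1, Pi.zero_apply, mul_zero] at h2
      rw [h2]
      unfold dd
      split_ifs <;> rfl
    obtain ⟨A, hA⟩ : ∃ A : ZMod p, A = (-1) ^ (k + 1) * c0 := ⟨_, rfl⟩
    have hv' : ∀ s : ZMod p, dd (s * A) (s * c1) = 0 := by
      intro s
      rw [← hv s, hA]
      congr 1
      ring
    by_cases hAB : A = c1
    · have h1 := hv' 1
      rw [one_mul, one_mul, dd_pos (by rw [hAB, sub_self]; exact IsSquare.zero)] at h1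
      have hc1 : c1 = 0 := by rw [← hAB, h1]
      have hc0 : c0 = 0 := by
        rw [hA] at h1
        exact (mul_eq_zero.1 h1).resolve_left (pow_ne_zero _ (neg_ne_zero.2 one_ne_zero))
      exact hc ⟨hc0, hc1⟩
    · have hne : A - c1 ≠ 0 := sub_ne_zero.2 hAB
      have h1 := hv' (A - c1)⁻¹
      rw [dd_pos (by
        rw [← mul_sub, inv_mul_cancel₀ hne]
        exact IsSquare.one)] at h1
      have hA0 : A = 0 := (mul_eq_zero.1 h1).resolve_left (inv_ne_zero hne)
      obtain ⟨n, hn⟩ := FiniteField.exists_nonsquare (F := ZMod p) (by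
        rw [ZMod.ringChar_zmod_n]
        exact hp2)
      have hn0 : n ≠ 0 := by
        rintro rfl
        exact hn IsSquare.zero
      have h2 := hv' (n * (A - c1)⁻¹)
      rw [dd_neg (by
        rw [← mul_sub, mul_assoc, inv_mul_cancel₀ hne, mul_one]
        exact hn)] at h2
      have hc10 : c1 = 0 :=
        (mul_eq_zero.1 h2).resolve_left (mul_ne_zero hn0 (inv_ne_zero hne))
      exact hAB (by rw [hA0, hc10])

end Pool.Agent.J6H34.LM
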